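import Mathlib

/-!
# A subgroup of `ℕ → ℤ` built from a covering hypothesis for category

Core construction: if no family of fewer than `𝔠` dense open sets of `ℕ → ℤ` has empty
intersection, then there is a subgroup of `ℕ → ℤ` which is small infinitely often along every
sequence of coordinates, but beats every increasing sequence of bounds.
-/

set_option autoImplicit false

namespace Pool.Agent.W651.OB

open Set Cardinal

/-- every family of fewer than `𝔠` dense open subsets of `ℕ → ℤ` has nonempty intersection -/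
def CovM : Prop :=
  ∀ 𝓓 : Set (Set (ℕ → ℤ)), #𝓓 < 𝔠 → (∀ D ∈ 𝓓, IsOpen D ∧ Dense D) → (⋂₀ 𝓓).Nonempty

/-- `x` is bounded by `b n` on the first `k n` coordinates for some `n` -/
def Small (k b : ℕ → ℕ) (x : ℕ → ℤ) : Prop := ∃ n, ∀ i < k n, |x i| ≤ b n

/-- `x` escapes the bounds `b` -/
def Beats (b : ℕ → ℕ) (x : ℕ → ℤ) : Prop := (b 0 : ℤ) < |x 0| ∧ ∀ m, (b (m + 1) : ℤ) < |x (b m)|

theorem exists_rec {I D : Type} [LinearOrder I] [WellFoundedLT I] [Nonempty D]
    (Q : I → (I → D) → D → Prop)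
    (hc : ∀ γ p q d, (∀ α < γ, p α = q α) → Q γ p d → Q γ q d)
    (hs : ∀ γ p, (∀ β < γ, Q β p (p β)) → ∃ d, Q γ p d) : ∃ f : I → D, ∀ γ, Q γ f (f γ) := by
  classical
  let ext : (γ : I) → ((α : I) → α < γ → D) → I → D := fun γ r α =>
    if h : α < γ then r α h else Classical.arbitrary D
  let G : (γ : I) → ((α : I) → α < γ → D) → D := fun γ r =>
    if h : ∃ d, Q γ (ext γ r) d then h.choose else Classical.arbitrary D
  let f : I → D := (wellFounded_lt (α := I)).fix G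
  have hf : ∀ γ, f γ = G γ (fun α _ => f α) := fun γ =>
    (wellFounded_lt (α := I)).fix_eq G γ
  refine ⟨f, fun γ => ?_⟩
  induction γ using (wellFounded_lt (α := I)).induction with
  | _ γ ih =>
    have h1 : ∀ α < γ, ext γ (fun α _ => f α) α = f α := by
      intro α hα
      simp only [ext, hα, dif_pos]
    obtain ⟨d, hd⟩ := hs γ f ih
    have h2 : ∃ d, Q γ (ext γ (fun α _ => f α)) d :=
      ⟨d, hc γ f _ d (fun α hα => (h1 α hα).symm) hd⟩
    have h3 : Q γ (ext γ (fun α _ => f α)) (f γ) := by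
      rw [hf γ]
      simp only [G, h2, dif_pos]
      exact h2.choose_spec
    exact hc γ _ f _ h1 h3

theorem exists_cyl {U : Set (ℕ → ℤ)} (hU : IsOpen U) {y : ℕ → ℤ} (hy : y ∈ U) :
    ∃ N, ∀ x : ℕ → ℤ, (∀ i < N, x i = y i) → x ∈ U := by
  obtain ⟨J, u, h1, h2⟩ := isOpen_pi_iff.1 hU y hy
  refine ⟨J.sup id + 1, fun x hx => h2 ?_⟩
  intro i hi
  have h3 : i ≤ J.sup id := Finset.le_sup (f := id) hi
  rw [hx i (by omega)]
  exact (h1 i hi).2

/-- push every coordinate `i` away from zero by `s i` -/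
def T (s : ℕ → ℕ) (y : ℕ → ℤ) : ℕ → ℤ := fun i => y i + if 0 ≤ y i then (s i : ℤ) else -(s i : ℤ)

theorem abs_T (s : ℕ → ℕ) (y : ℕ → ℤ) (i : ℕ) : |T s y i| = |y i| + s i := by
  unfold T
  split_ifs with h
  · rw [abs_of_nonneg h, abs_of_nonneg (by positivity)]
  · rw [abs_of_neg (not_le.1 h), abs_of_neg (by have := not_le.1 h; omega)]
    ring

theorem T_sub (s : ℕ → ℕ) (y : ℕ → ℤ) (i : ℕ) : |T s y i - y i| = s i := by
  unfold T
  split_ifs with h
  · simp
  · simp

theorem isOpen_coord (n : ℕ) (P : ℕ → ℤ → Prop) : IsOpen {y : ℕ → ℤ | ∀ i < n, P i (y i)} := by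
  have h : {y : ℕ → ℤ | ∀ i < n, P i (y i)} = ⋂ i ∈ Finset.range n, (fun y : ℕ → ℤ => y i) ⁻¹' {v | P i v} := by
    ext y
    simp
  rw [h]
  exact isOpen_biInter_finset fun i _ => (isOpen_discrete _).preimage (continuous_apply i)

/-- the set of the `y` for which `x + z • T s y` is small -/
def DS (k b : ℕ → ℕ) (s : ℕ → ℕ) (x : ℕ → ℤ) (z : ℤ) : Set (ℕ → ℤ) :=
  {y | Small k b (x + z • T s y)}

theorem isOpen_DS (k b s : ℕ → ℕ) (x : ℕ → ℤ) (z : ℤ) : IsOpen (DS k b s x z) := by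
  have h : DS k b s x z = ⋃ n, {y : ℕ → ℤ | ∀ i < k n,
      |x i + z * (y i + if 0 ≤ y i then (s i : ℤ) else -(s i : ℤ))| ≤ b n} := by
    ext y
    simp [DS, Small, T]
  rw [h]
  exact isOpen_iUnion fun n => isOpen_coord (k n)
    (fun i v => |x i + z * (v + if 0 ≤ v then (s i : ℤ) else -(s i : ℤ))| ≤ b n)

/-- `s` is a spike function for the increasing sequence `c` -/
def Spike (c s : ℕ → ℕ) : Prop :=
  c 0 < s 0 ∧ (∀ m, c (m + 1) < s (c m)) ∧ ∀ i, 1 ≤ i → s i = 0 ∨ ∃ m, i = c m ∧ s i = c (m + 1) + 1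

theorem exists_spike {c : ℕ → ℕ} (hc : StrictMono c) : ∃ s, Spike c s := by
  classical
  refine ⟨fun i => (if i = 0 then c 0 + 1 else 0) +
    if h : ∃ m, c m = i then c (h.choose + 1) + 1 else 0, ?_, ?_, ?_⟩
  · simp only [if_true]
    omega
  · intro m
    have h : ∃ m', c m' = c m := ⟨m, rfl⟩
    have h1 : h.choose = m := hc.injective h.choose_spec
    simp only [h, dif_pos]
    rw [h1]
    omega
  · intro i hi
    by_cases h : ∃ m, c m = i
    · right
      refine ⟨h.choose, h.choose_spec.symm, ?_⟩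
      simp only [h, dif_pos]
      rw [if_neg (by omega)]
      omega
    · left
      simp only [h, dif_neg, not_false_iff]
      rw [if_neg (by omega)]

theorem dense_DS {k b c s : ℕ → ℕ} (hk : StrictMono k) (hb : ∀ n, (k (n + 1) + 1) ^ 2 ≤ b n)
    (hc : StrictMono c) (hs : Spike c s) (x : ℕ → ℤ) {z : ℤ} (hz : z ≠ 0) :
    Dense (DS k b s x z) := by
  rw [dense_iff_inter_open]
  rintro U hU ⟨y0, hy0⟩
  obtain ⟨N, hN⟩ := exists_cyl hU hy0
  let y : ℕ → ℤ := fun i => if i < N + 1 then y0 i else -(x i / z)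
  have hyU : y ∈ U := hN y fun i hi => by simp only [y]; rw [if_pos (by omega)]
  refine ⟨y, hyU, ?_⟩
  obtain ⟨E, hE⟩ : ∃ E : ℕ, ∀ i < N + 1, |x i + z * T s y i| ≤ E := by
    refine ⟨∑ i ∈ Finset.range (N + 1), (x i + z * T s y i).natAbs, fun i hi => ?_⟩
    have h1 : (x i + z * T s y i).natAbs ≤
        ∑ i ∈ Finset.range (N + 1), (x i + z * T s y i).natAbs :=
      Finset.single_le_sum (f := fun i => (x i + z * T s y i).natAbs)
        (fun _ _ => Nat.zero_le _) (Finset.mem_range.2 hi)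
    rw [Int.abs_eq_natAbs]
    exact_mod_cast h1
  obtain ⟨m, hm⟩ : ∃ m, E + z.natAbs + k 0 ≤ c (m + 1) :=
    ⟨E + z.natAbs + k 0, le_trans (Nat.le_succ _) (hc.le_apply)⟩
  set M := c (m + 1) with hM
  let n := Nat.findGreatest (fun n => k n ≤ M) M
  have hn1 : k n ≤ M := Nat.findGreatest_spec (P := fun n => k n ≤ M) (Nat.zero_le M) (by omega)
  have hn2 : M < k (n + 1) := by
    by_contra hcon
    rw [not_lt] at hcon
    have h1 : n + 1 ≤ M := le_trans hk.le_apply hcon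
    have h2 : n + 1 ≤ n := Nat.le_findGreatest h1 hcon
    omega
  have hbn : (M + 2) ^ 2 ≤ b n := le_trans (Nat.pow_le_pow_left (by omega) 2) (hb n)
  refine ⟨n, fun i hi => ?_⟩
  show |x i + z * T s y i| ≤ b n
  by_cases hiN : i < N + 1
  · refine le_trans (hE i hiN) ?_
    have h1 : M ≤ (M + 2) ^ 2 := by nlinarith
    have : E ≤ b n := by omega
    exact_mod_cast this
  · have hyi : y i = -(x i / z) := by simp only [y]; rw [if_neg hiN]
    have h1 : |x i + z * y i| ≤ |z| := by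
      rw [hyi]
      have h2 : x i + z * -(x i / z) = x i % z := by
        rw [Int.emod_def]; ring
      rw [h2, abs_of_nonneg (Int.emod_nonneg _ hz)]
      exact (Int.emod_lt_abs (x i) hz).le
    have h2 : (s i : ℤ) ≤ M + 1 := by
      rcases hs.2.2 i (by omega) with h | ⟨j, hj, h⟩
      · rw [h]; push_cast; positivity
      · rw [h]
        have h3 : j < m + 1 := by
          by_contra hcon
          have h4 : c (m + 1) ≤ c j := hc.monotone (not_lt.1 hcon)
          omega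
        have h4 : c (j + 1) ≤ M := hc.monotone (by omega)
        push_cast
        exact_mod_cast (by omega : c (j + 1) + 1 ≤ M + 1)
    have h3 : x i + z * T s y i = (x i + z * y i) + z * (T s y i - y i) := by ring
    have h4 : |z * (T s y i - y i)| ≤ |z| * (M + 1) := by
      rw [abs_mul, T_sub]
      exact mul_le_mul_of_nonneg_left h2 (abs_nonneg z)
    have h5 : |z| ≤ M := by
      rw [Int.abs_eq_natAbs]
      exact_mod_cast (by omega : z.natAbs ≤ M)
    have h6 : ((M : ℤ) + 2) ^ 2 ≤ b n := by exact_mod_cast hbn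
    have h7 : (0 : ℤ) ≤ M := by positivity
    calc |x i + z * T s y i| ≤ |x i + z * y i| + |z * (T s y i - y i)| := by
          rw [h3]; exact abs_add_le _ _
      _ ≤ |z| + |z| * (M + 1) := add_le_add h1 h4
      _ ≤ (M : ℤ) + M * (M + 1) := by
          have : |z| * ((M : ℤ) + 1) ≤ M * (M + 1) :=
            mul_le_mul_of_nonneg_right h5 (by positivity)
          linarith
      _ ≤ ((M : ℤ) + 2) ^ 2 := by nlinarith
      _ ≤ b n := h6

theorem beats_T {c s : ℕ → ℕ} (hs : Spike c s) (y : ℕ → ℤ) : Beats c (T s y) := by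
  constructor
  · rw [abs_T]
    have h1 := hs.1
    have h2 := abs_nonneg (y 0)
    have h3 : (c 0 : ℤ) < s 0 := by exact_mod_cast h1
    linarith
  · intro m
    rw [abs_T]
    have h1 := hs.2.1 m
    have h2 := abs_nonneg (y (c m))
    have h3 : (c (m + 1) : ℤ) < s (c m) := by exact_mod_cast h1
    linarith

theorem exists_bound (hcov : CovM) {k : ℕ → ℕ} {X : Set (ℕ → ℤ)} (hX : #X < 𝔠) :
    ∃ b : ℕ → ℕ, (∀ n, (k (n + 1) + 1) ^ 2 ≤ b n) ∧ ∀ x ∈ X, Small k b x := by
  let D : (ℕ → ℤ) → Set (ℕ → ℤ) := fun x => {y | ∃ n, ∀ i < k n, |x i| ≤ |y n|}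
  obtain ⟨y, hy⟩ := hcov (D '' X) (lt_of_le_of_lt mk_image_le hX) (by
    rintro _ ⟨x, _, rfl⟩
    constructor
    · have h : D x = ⋃ n, (fun y : ℕ → ℤ => y n) ⁻¹' {v | ∀ i < k n, |x i| ≤ |v|} := by
        ext y
        simp [D]
      rw [h]
      exact isOpen_iUnion fun n => (isOpen_discrete _).preimage (continuous_apply n)
    · rw [dense_iff_inter_open]
      rintro U hU ⟨y0, hy0⟩
      obtain ⟨N, hN⟩ := exists_cyl hU hy0
      let E : ℕ := ∑ i ∈ Finset.range (k N), (x i).natAbs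
      have hE : ∀ i < k N, |x i| ≤ (E : ℤ) := by
        intro i hi
        have h1 : (x i).natAbs ≤ E :=
          Finset.single_le_sum (f := fun i => (x i).natAbs)
            (fun _ _ => Nat.zero_le _) (Finset.mem_range.2 hi)
        rw [Int.abs_eq_natAbs]
        exact_mod_cast h1
      refine ⟨Function.update y0 N (E : ℤ), hN _ fun i hi => ?_, N, fun i hi => ?_⟩
      · rw [Function.update_of_ne (by omega)]
      · rw [Function.update_self, abs_of_nonneg (by positivity : (0 : ℤ) ≤ (E : ℤ))]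
        exact hE i hi)
  refine ⟨fun n => (y n).natAbs + (k (n + 1) + 1) ^ 2, fun n => by simp, fun x hx => ?_⟩
  obtain ⟨n, hn⟩ := hy (D x) ⟨x, hx, rfl⟩
  refine ⟨n, fun i hi => le_trans (hn i hi) ?_⟩
  rw [Int.abs_eq_natAbs]
  exact_mod_cast Nat.le_add_right _ _

theorem mk_span_lt {X : Set (ℕ → ℤ)} (hX : #X < 𝔠) :
    #(Submodule.span ℤ X : Set (ℕ → ℤ)) < 𝔠 := by
  have h1 : (Submodule.span ℤ X : Set (ℕ → ℤ)) =
      Set.range (Finsupp.linearCombination ℤ ((↑) : X → (ℕ → ℤ))) := by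
    have h2 := Finsupp.range_linearCombination ℤ (v := ((↑) : X → (ℕ → ℤ)))
    rw [Subtype.range_coe] at h2
    rw [← h2]
    rfl
  rw [h1]
  refine lt_of_le_of_lt mk_range_le ?_
  rcases isEmpty_or_nonempty X with h | h
  · have : #(X →₀ ℤ) ≤ 1 := le_one_iff_subsingleton.2 inferInstance
    exact lt_of_le_of_lt this (lt_of_lt_of_le one_lt_aleph0 aleph0_le_continuum)
  · rw [mk_finsupp_of_infinite']
    exact max_lt hX (by simpa using aleph0_lt_continuum)

/-- the set of vectors chosen before stage `γ` -/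
def Pre {I : Type} [LinearOrder I] (p : I → (ℕ → ℤ) × (ℕ → ℕ)) (γ : I) : Set (ℕ → ℤ) :=
  (fun α => (p α).1) '' Iio γ

/-- requirement on the choice at stage `γ` -/
def Q {I : Type} [LinearOrder I] (e : I → ℕ → ℕ) (γ : I) (p : I → (ℕ → ℤ) × (ℕ → ℕ))
    (d : (ℕ → ℤ) × (ℕ → ℕ)) : Prop :=
  Beats (e γ) d.1 ∧
  (∀ β < γ, ∀ x ∈ Submodule.span ℤ (Pre p γ), ∀ z : ℤ, z ≠ 0 →
    Small (e β) (p β).2 (x + z • d.1)) ∧
  (∀ n, (e γ (n + 1) + 1) ^ 2 ≤ d.2 n) ∧
  ∀ x ∈ Submodule.span ℤ (insert d.1 (Pre p γ)), Small (e γ) d.2 x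

theorem exists_core (hcov : CovM) : ∃ H : Submodule ℤ (ℕ → ℤ),
    (∀ c : ℕ → ℕ, StrictMono c → ∃ x ∈ H, Beats c x) ∧
    ∀ k : ℕ → ℕ, StrictMono k → ∃ b : ℕ → ℕ, ∀ x ∈ H, Small k b x := by
  classical
  let I : Type := (𝔠 : Cardinal.{0}).ord.ToType
  have hI : #I = 𝔠 := mk_ord_toType _
  have hIio : ∀ γ : I, #(Iio γ) < 𝔠 := fun γ => by simpa [I] using mk_Iio_lt γ
  obtain ⟨e, he1, he2⟩ : ∃ e : I → ℕ → ℕ, (∀ γ, StrictMono (e γ)) ∧
      ∀ c : ℕ → ℕ, StrictMono c → ∃ γ, e γ = c := by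
    have h1 : #{c : ℕ → ℕ // StrictMono c} ≤ #I := by
      rw [hI]
      refine le_trans (mk_subtype_le _) ?_
      simp
    obtain ⟨f⟩ := h1
    have : Nonempty {c : ℕ → ℕ // StrictMono c} := ⟨⟨id, strictMono_id⟩⟩
    refine ⟨fun γ => (Function.invFun f γ).1, fun γ => (Function.invFun f γ).2, fun c hc => ?_⟩
    obtain ⟨γ, hγ⟩ := Function.invFun_surjective f.injective ⟨c, hc⟩
    exact ⟨γ, by simp only [hγ]⟩
  obtain ⟨f, hf⟩ : ∃ f : I → (ℕ → ℤ) × (ℕ → ℕ), ∀ γ, Q e γ f (f γ) := by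
    apply exists_rec (Q e)
    · intro γ p q d hpq hQ
      have h1 : Pre p γ = Pre q γ := by
        unfold Pre
        refine Set.image_congr fun α hα => ?_
        rw [hpq α hα]
      obtain ⟨h2, h3, h4, h5⟩ := hQ
      refine ⟨h2, fun β hβ x hx z hz => ?_, h4, ?_⟩
      · rw [← hpq β hβ]
        exact h3 β hβ x (by rw [h1]; exact hx) z hz
      · rw [← h1]
        exact h5
    · intro γ p hp
      have hPre : #(Pre p γ) < 𝔠 := lt_of_le_of_lt mk_image_le (hIio γ)
      have hS : #(Submodule.span ℤ (Pre p γ) : Set (ℕ → ℤ)) < 𝔠 := mk_span_lt hPre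
      obtain ⟨s, hs⟩ := exists_spike (he1 γ)
      let S : Set (ℕ → ℤ) := (Submodule.span ℤ (Pre p γ) : Set (ℕ → ℤ))
      let W : Type := (Iio γ) × S × {z : ℤ // z ≠ 0}
      have hW : #W < 𝔠 := by
        have h1 : #W = #(Iio γ) * (#S * #{z : ℤ // z ≠ 0}) := by
          simp only [W, mk_prod, lift_id]
        rw [h1]
        have h2 : #{z : ℤ // z ≠ 0} < 𝔠 := lt_of_le_of_lt (mk_le_aleph0) aleph0_lt_continuum
        exact mul_lt_of_lt aleph0_le_continuum (hIio γ) (mul_lt_of_lt aleph0_le_continuum hS h2)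
      let D : W → Set (ℕ → ℤ) := fun w => DS (e w.1.1) (p w.1.1).2 s w.2.1.1 w.2.2.1
      obtain ⟨y, hy⟩ := hcov (Set.range D) (lt_of_le_of_lt mk_range_le hW) (by
        rintro _ ⟨w, rfl⟩
        exact ⟨isOpen_DS _ _ _ _ _,
          dense_DS (he1 _) (hp w.1.1 w.1.2).2.2.1 (he1 γ) hs _ w.2.2.2⟩)
      have hX : #(Submodule.span ℤ (insert (T s y) (Pre p γ)) : Set (ℕ → ℤ)) < 𝔠 := by
        apply mk_span_lt
        refine lt_of_le_of_lt mk_insert_le ?_
        exact add_lt_of_lt aleph0_le_continuum hPre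
          (lt_of_lt_of_le one_lt_aleph0 aleph0_le_continuum)
      obtain ⟨b, hb1, hb2⟩ := exists_bound hcov (k := e γ) hX
      refine ⟨(T s y, b), beats_T hs y, fun β hβ x hx z hz => ?_, hb1, hb2⟩
      exact hy (D (⟨β, hβ⟩, ⟨x, hx⟩, ⟨z, hz⟩)) ⟨_, rfl⟩
  -- every element below some stage is small for every stage
  let U : I → Submodule ℤ (ℕ → ℤ) := fun γ => Submodule.span ℤ (insert (f γ).1 (Pre f γ))
  have hUmono : ∀ α γ, α ≤ γ → U α ≤ U γ := by
    intro α γ h
    apply Submodule.span_mono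
    rintro v (rfl | ⟨δ, hδ, rfl⟩)
    · rcases h.lt_or_eq with h1 | h1
      · exact Or.inr ⟨α, h1, rfl⟩
      · rw [h1]; exact Or.inl rfl
    · exact Or.inr ⟨δ, lt_of_lt_of_le hδ h, rfl⟩
  have hPreU : ∀ γ, ∀ x ∈ Submodule.span ℤ (Pre f γ), x = 0 ∨ ∃ δ < γ, x ∈ U δ := by
    intro γ x hx
    induction hx using Submodule.span_induction with
    | mem x hx =>
      obtain ⟨δ, hδ, rfl⟩ := hx
      exact Or.inr ⟨δ, hδ, Submodule.subset_span (Or.inl rfl)⟩
    | zero => exact Or.inl rfl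
    | add x y _ _ hx hy =>
      rcases hx with rfl | ⟨δ, hδ, hx⟩
      · rw [zero_add]; exact hy
      · rcases hy with rfl | ⟨ε, hε, hy⟩
        · rw [add_zero]; exact Or.inr ⟨δ, hδ, hx⟩
        · exact Or.inr ⟨max δ ε, max_lt hδ hε,
            (U (max δ ε)).add_mem (hUmono _ _ (le_max_left _ _) hx)
              (hUmono _ _ (le_max_right _ _) hy)⟩
    | smul a x _ hx =>
      rcases hx with rfl | ⟨δ, hδ, hx⟩
      · exact Or.inl (smul_zero a)
      · exact Or.inr ⟨δ, hδ, (U δ).smul_mem a hx⟩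
  have hzero : ∀ β, Small (e β) (f β).2 0 := fun β => ⟨0, fun i _ => by simp⟩
  have hmain : ∀ γ, ∀ x ∈ U γ, ∀ β, Small (e β) (f β).2 x := by
    intro γ
    induction γ using (wellFounded_lt (α := I)).induction with
    | _ γ ih =>
      intro x hx β
      rcases le_or_gt γ β with h | h
      · exact (hf β).2.2.2 x (hUmono γ β h hx)
      · obtain ⟨z, x', hx', rfl⟩ := Submodule.mem_span_insert.1 hx
        by_cases hz : z = 0
        · subst hz
          rw [zero_smul, zero_add]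
          rcases hPreU γ x' hx' with rfl | ⟨δ, hδ, hδx⟩
          · exact hzero β
          · exact ih δ hδ x' hδx β
        · rw [add_comm]
          exact (hf γ).2.1 β h x' hx' z hz
  refine ⟨Submodule.span ℤ (Set.range fun γ => (f γ).1), fun c hc => ?_, fun k hk => ?_⟩
  · obtain ⟨γ, rfl⟩ := he2 c hc
    exact ⟨(f γ).1, Submodule.subset_span ⟨γ, rfl⟩, (hf γ).1⟩
  · obtain ⟨β, rfl⟩ := he2 k hk
    refine ⟨(f β).2, fun x hx => ?_⟩
    have h1 : x = 0 ∨ ∃ δ, x ∈ U δ := by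
      induction hx using Submodule.span_induction with
      | mem x hx =>
        obtain ⟨δ, rfl⟩ := hx
        exact Or.inr ⟨δ, Submodule.subset_span (Or.inl rfl)⟩
      | zero => exact Or.inl rfl
      | add x y _ _ hx hy =>
        rcases hx with rfl | ⟨δ, hx⟩
        · rw [zero_add]; exact hy
        · rcases hy with rfl | ⟨ε, hy⟩
          · rw [add_zero]; exact Or.inr ⟨δ, hx⟩
          · exact Or.inr ⟨max δ ε,
              (U (max δ ε)).add_mem (hUmono _ _ (le_max_left _ _) hx)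
                (hUmono _ _ (le_max_right _ _) hy)⟩
      | smul a x _ hx =>
        rcases hx with rfl | ⟨δ, hx⟩
        · exact Or.inl (smul_zero a)
        · exact Or.inr ⟨δ, (U δ).smul_mem a hx⟩
    rcases h1 with rfl | ⟨δ, hδ⟩
    · exact hzero β
    · exact hmain δ x hδ β

end Pool.Agent.W651.OB
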