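import Pool.Agent.W651.OB.Core

/-!
# The group of the core construction is o-bounded and player I wins the open-finite game
-/

set_option autoImplicit false

namespace Pool.Agent.W651.OB

open Set Cardinal Topology Pointwise

/-- `A` is `o`-bounded in the topological group `G` -/
def IsOBounded {G : Type} [Group G] [TopologicalSpace G] (A : Set G) : Prop :=
  ∀ U : ℕ → Set G, (∀ n, U n ∈ 𝓝 (1 : G)) → ∃ F : ℕ → Finset G, A ⊆ ⋃ n, (F n : Set G) * U n

/-- Player I has a winning strategy in the open-finite game `OF(A)`. -/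
def PlayerIWins {G : Type} [Group G] [TopologicalSpace G] (A : Set G) : Prop :=
  ∃ σ : List (Finset G) → Set G, (∀ l, σ l ∈ 𝓝 (1 : G)) ∧
    ∀ F : ℕ → Finset G, ¬ A ⊆ ⋃ n, (F n : Set G) * σ ((List.range n).map F)

variable (H : Submodule ℤ (ℕ → ℤ))

/-- basic neighbourhood of the neutral element -/
def Nb (n : ℕ) : Set (Multiplicative H) :=
  {x | ∀ i < n, (Multiplicative.toAdd x : H).1 i = 0}

theorem Nb_mem (n : ℕ) : Nb H n ∈ 𝓝 (1 : Multiplicative H) := by
  have h1 : IsOpen {y : ℕ → ℤ | ∀ i < n, y i = 0} := isOpen_coord n fun _ v => v = 0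
  have h2 : IsOpen (Nb H n) := h1.preimage (continuous_subtype_val (p := fun x => x ∈ H))
  exact h2.mem_nhds fun i _ => rfl

theorem exists_nb_aux (W : Set H) (hW : W ∈ 𝓝 (0 : H)) :
    ∃ n, {x : H | ∀ i < n, x.1 i = 0} ⊆ W := by
  rw [nhds_subtype_eq_comap, Filter.mem_comap] at hW
  obtain ⟨V, hV, hVU⟩ := hW
  obtain ⟨V', hV', hVo, h0⟩ := mem_nhds_iff.1 hV
  obtain ⟨N, hN⟩ := exists_cyl hVo h0
  exact ⟨N, fun x hx => hVU (hV' (hN _ fun i hi => hx i hi))⟩

theorem exists_Nb {U : Set (Multiplicative H)} (hU : U ∈ 𝓝 (1 : Multiplicative H)) :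
    ∃ n, Nb H n ⊆ U :=
  exists_nb_aux H U hU

theorem isOBounded_univ
    (h : ∀ k : ℕ → ℕ, StrictMono k → ∃ b : ℕ → ℕ, ∀ x ∈ H, Small k b x) :
    IsOBounded (Set.univ : Set (Multiplicative H)) := by
  intro U hU
  choose N hN using fun n => exists_Nb H (hU n)
  let k : ℕ → ℕ := fun n => ∑ j ∈ Finset.range (n + 1), (N j + 1)
  have hk : StrictMono k := by
    apply strictMono_nat_of_lt_succ
    intro n
    simp only [k]
    rw [Finset.sum_range_succ _ (n + 1)]
    omega
  have hNk : ∀ n, N n ≤ k n := by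
    intro n
    have h1 : N n + 1 ≤ k n :=
      Finset.single_le_sum (f := fun j => N j + 1) (fun _ _ => Nat.zero_le _)
        (Finset.mem_range.2 (Nat.lt_succ_self n))
    omega
  obtain ⟨b, hb⟩ := h k hk
  have hF : ∀ n, ∃ F : Finset (Multiplicative H), ∀ x : Multiplicative H,
      (∀ i < k n, |(Multiplicative.toAdd x : H).1 i| ≤ b n) →
      ∃ y ∈ F, ∀ i < k n, (Multiplicative.toAdd x : H).1 i = (Multiplicative.toAdd y : H).1 i := by
    intro n
    let Z : Set (Multiplicative H) :=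
      {x | ∀ i < k n, |(Multiplicative.toAdd x : H).1 i| ≤ b n}
    let ρ : Multiplicative H → Fin (k n) → ℤ := fun x i => (Multiplicative.toAdd x : H).1 i
    have hfin : (ρ '' Z).Finite := by
      refine Set.Finite.subset (Fintype.piFinset
        (fun _ : Fin (k n) => Finset.Icc (-(b n : ℤ)) (b n))).finite_toSet ?_
      rintro _ ⟨x, hx, rfl⟩
      simp only [Finset.mem_coe, Fintype.mem_piFinset, Finset.mem_Icc]
      intro i
      exact abs_le.1 (hx i i.2)
    obtain ⟨t, ht, hbij⟩ := Set.exists_subset_bijOn Z ρ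
    have htf : t.Finite := Set.Finite.of_finite_image (by rw [hbij.image_eq]; exact hfin) hbij.injOn
    refine ⟨htf.toFinset, fun x hx => ?_⟩
    obtain ⟨y, hy, hyx⟩ := hbij.surjOn ⟨x, hx, rfl⟩
    refine ⟨y, htf.mem_toFinset.2 hy, fun i hi => ?_⟩
    exact (congrFun hyx ⟨i, hi⟩).symm
  choose F hF using hF
  refine ⟨F, fun x _ => ?_⟩
  obtain ⟨n, hn⟩ := hb (Multiplicative.toAdd x : H).1 (Multiplicative.toAdd x : H).2
  obtain ⟨y, hy, hyx⟩ := hF n x hn
  refine Set.mem_iUnion.2 ⟨n, Set.mem_mul.2 ⟨y, hy, y⁻¹ * x, hN n fun i hi => ?_, by simp⟩⟩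
  have h1 := hyx i (lt_of_lt_of_le hi (hNk n))
  show (-(Multiplicative.toAdd y : H) + (Multiplicative.toAdd x : H)).1 i = 0
  simp only [Submodule.coe_add, Submodule.coe_neg, Pi.add_apply, Pi.neg_apply]
  rw [h1]
  ring

/-- bound of the finite set `F` on the first `x` coordinates -/
def bnd (x : ℕ) (F : Finset (Multiplicative H)) : ℕ :=
  x + ∑ f ∈ F, ∑ i ∈ Finset.range x, ((Multiplicative.toAdd f : H).1 i).natAbs

/-- the number of coordinates player I looks at -/
def st (l : List (Finset (Multiplicative H))) : ℕ := l.foldl (fun x F => bnd H x F + 1) 1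

theorem st_zero (F : ℕ → Finset (Multiplicative H)) : st H ((List.range 0).map F) = 1 := rfl

theorem st_succ (F : ℕ → Finset (Multiplicative H)) (n : ℕ) :
    st H ((List.range (n + 1)).map F) = bnd H (st H ((List.range n).map F)) (F n) + 1 := by
  simp [st, List.range_succ]

theorem le_bnd {x : ℕ} {F : Finset (Multiplicative H)} {f : Multiplicative H} (hf : f ∈ F)
    {i : ℕ} (hi : i < x) : |(Multiplicative.toAdd f : H).1 i| ≤ bnd H x F := by
  have h1 : ((Multiplicative.toAdd f : H).1 i).natAbs ≤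
      ∑ i ∈ Finset.range x, ((Multiplicative.toAdd f : H).1 i).natAbs :=
    Finset.single_le_sum (f := fun i => ((Multiplicative.toAdd f : H).1 i).natAbs)
      (fun _ _ => Nat.zero_le _) (Finset.mem_range.2 hi)
  have h2 : ∑ i ∈ Finset.range x, ((Multiplicative.toAdd f : H).1 i).natAbs ≤
      ∑ f ∈ F, ∑ i ∈ Finset.range x, ((Multiplicative.toAdd f : H).1 i).natAbs :=
    Finset.single_le_sum
      (f := fun f : Multiplicative H => ∑ i ∈ Finset.range x, ((Multiplicative.toAdd f : H).1 i).natAbs)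
      (fun _ _ => Nat.zero_le _) hf
  rw [Int.abs_eq_natAbs]
  unfold bnd
  exact_mod_cast le_trans (le_trans h1 h2) (Nat.le_add_left _ _)

theorem playerIWins_univ
    (h : ∀ c : ℕ → ℕ, StrictMono c → ∃ x ∈ H, Beats c x) :
    PlayerIWins (Set.univ : Set (Multiplicative H)) := by
  refine ⟨fun l => Nb H (st H l), fun l => Nb_mem H _, fun F hcov => ?_⟩
  let c : ℕ → ℕ := fun n => bnd H (st H ((List.range n).map F)) (F n)
  have hst : ∀ n, st H ((List.range (n + 1)).map F) = c n + 1 := fun n => st_succ H F n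
  have hc : StrictMono c := by
    apply strictMono_nat_of_lt_succ
    intro n
    have h1 : st H ((List.range (n + 1)).map F) ≤ c (n + 1) := Nat.le_add_right _ _
    rw [hst n] at h1
    omega
  obtain ⟨x, hx, hb0, hb⟩ := h c hc
  obtain ⟨n, hn⟩ := Set.mem_iUnion.1 (hcov (Set.mem_univ (Multiplicative.ofAdd (⟨x, hx⟩ : H))))
  obtain ⟨f, hf, u, hu, hfu⟩ := Set.mem_mul.1 hn
  have hval : ∀ i, x i = (Multiplicative.toAdd f : H).1 i + (Multiplicative.toAdd u : H).1 i := by
    intro i
    have h1 : (Multiplicative.toAdd f : H) + (Multiplicative.toAdd u : H) = (⟨x, hx⟩ : H) := hfu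
    have h2 := congrFun (congrArg Subtype.val h1) i
    simpa using h2.symm
  cases n with
  | zero =>
    have h1 : (Multiplicative.toAdd u : H).1 0 = 0 := hu 0 (by rw [st_zero]; exact Nat.zero_lt_one)
    have h2 : |(Multiplicative.toAdd f : H).1 0| ≤ c 0 :=
      le_bnd H hf (by rw [st_zero]; exact Nat.zero_lt_one)
    rw [hval 0, h1, add_zero] at hb0
    exact absurd hb0 (not_lt.2 h2)
  | succ m =>
    have hlt : c m < st H ((List.range (m + 1)).map F) := by rw [hst m]; exact Nat.lt_succ_self _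
    have h1 : (Multiplicative.toAdd u : H).1 (c m) = 0 := hu (c m) hlt
    have h2 : |(Multiplicative.toAdd f : H).1 (c m)| ≤ c (m + 1) := le_bnd H hf hlt
    have h3 := hb m
    rw [hval (c m), h1, add_zero] at h3
    exact absurd h3 (not_lt.2 h2)

theorem covM_of_CH (h : (𝔠 : Cardinal.{0}) = ℵ₁) : CovM := by
  intro 𝓓 h1 h2
  rw [h, lt_aleph_one_iff, le_aleph0_iff_set_countable] at h1
  exact (dense_sInter_of_isOpen (fun s hs => (h2 s hs).1) h1 fun s hs => (h2 s hs).2).nonempty

end Pool.Agent.W651.OB
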