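import Pool.Agent.W651.OB.Game

/-!
# If player I wins the open-finite game on a group, the square of the group is not o-bounded
-/

set_option autoImplicit false

namespace Pool.Agent.W651.OB

open Set Topology Pointwise

theorem not_isOBounded_square {G : Type} [Group G] [TopologicalSpace G] [IsTopologicalGroup G]
    (h : PlayerIWins (Set.univ : Set G)) : ¬ IsOBounded (Set.univ : Set (G × G)) := by
  classical
  intro hob
  obtain ⟨σ, hσ, hwin⟩ := h
  -- the group is narrow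
  have hnar : ∀ V : Set G, V ∈ 𝓝 (1 : G) → ∃ K : ℕ → Finset G, Monotone K ∧
      ∀ x : G, ∃ m, x ∈ (K m : Set G) * V := by
    intro V hV
    obtain ⟨F, hF⟩ := hob (fun _ => V ×ˢ Set.univ) (fun _ => by
      rw [show (1 : G × G) = (1, 1) from rfl, nhds_prod_eq]
      exact Filter.prod_mem_prod hV Filter.univ_mem)
    refine ⟨fun m => (Finset.range (m + 1)).biUnion fun n => (F n).image Prod.fst, ?_, fun x => ?_⟩
    · intro m m' hmm
      exact Finset.biUnion_subset_biUnion_of_subset_left _ (Finset.range_subset_range.2 (by omega))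
    · obtain ⟨n, hn⟩ := Set.mem_iUnion.1 (hF (Set.mem_univ (x, (1 : G))))
      obtain ⟨f, hf, u, hu, hfu⟩ := Set.mem_mul.1 hn
      refine ⟨n, Set.mem_mul.2 ⟨f.1, ?_, u.1, hu.1, congrArg Prod.fst hfu⟩⟩
      simp only [Finset.coe_biUnion, Set.mem_iUnion, Finset.coe_image]
      exact ⟨n, by simp, f, hf, rfl⟩
  have hV : ∀ l, ∃ V : Set G, V ∈ 𝓝 (1 : G) ∧ V * V ⊆ σ l := by
    intro l
    obtain ⟨V, hVo, h1, hVV⟩ := exists_open_nhds_one_mul_subset (hσ l)
    exact ⟨V, hVo.mem_nhds h1, hVV⟩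
  choose V hV1 hV2 using hV
  choose K hK1 hK2 using fun l => hnar (V l) (hV1 l)
  -- positions
  let pos : List ℕ → List (Finset G) := fun s => s.foldr (fun m l => l ++ [K l m]) []
  have hpos : ∀ m s, pos (m :: s) = pos s ++ [K (pos s) m] := fun m s => rfl
  let W : ℕ → Set G := fun n => ⋂ j ∈ Finset.range (n + 1),
    V (pos ((Encodable.decode (α := List ℕ) j).getD []))
  have hW1 : ∀ n, W n ∈ 𝓝 (1 : G) := fun n =>
    (Filter.biInter_finset_mem _).2 fun j _ => hV1 _
  have hW2 : ∀ (s : List ℕ) n, Encodable.encode s ≤ n → W n ⊆ V (pos s) := by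
    intro s n hs x hx
    have h1 := Set.mem_iInter₂.1 hx (Encodable.encode s) (Finset.mem_range.2 (by omega))
    rwa [Encodable.encodek] at h1
  obtain ⟨E', hE'⟩ := hob (fun n => W n ×ˢ W n) (fun n => by
    rw [show (1 : G × G) = (1, 1) from rfl, nhds_prod_eq]
    exact Filter.prod_mem_prod (hW1 n) (hW1 n))
  let E : ℕ → Finset G := fun n => (E' n).image Prod.fst ∪ (E' n).image Prod.snd
  have hE : ∀ x y : G, ∃ n, x ∈ (E n : Set G) * W n ∧ y ∈ (E n : Set G) * W n := by
    intro x y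
    obtain ⟨n, hn⟩ := Set.mem_iUnion.1 (hE' (Set.mem_univ (x, y)))
    obtain ⟨f, hf, u, hu, hfu⟩ := Set.mem_mul.1 hn
    refine ⟨n, Set.mem_mul.2 ⟨f.1, ?_, u.1, hu.1, congrArg Prod.fst hfu⟩,
      Set.mem_mul.2 ⟨f.2, ?_, u.2, hu.2, congrArg Prod.snd hfu⟩⟩
    · simp only [E, Finset.coe_union, Finset.coe_image]
      exact Or.inl ⟨f, hf, rfl⟩
    · simp only [E, Finset.coe_union, Finset.coe_image]
      exact Or.inr ⟨f, hf, rfl⟩
  -- moves covering an interval of the E n * W n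
  have hM1 : ∀ (s : List ℕ) (j : ℕ), Encodable.encode s ≤ j → ∃ m, ∀ m' ≥ m,
      (E j : Set G) * W j ⊆ (K (pos s) m' : Set G) * σ (pos s) := by
    intro s j hj
    choose q hq using fun e : G => hK2 (pos s) e
    refine ⟨(E j).sup q, fun m' hm' x hx => ?_⟩
    obtain ⟨e, he, w, hw, rfl⟩ := Set.mem_mul.1 hx
    obtain ⟨g, hg, v, hv, hgv⟩ := Set.mem_mul.1 (hq e)
    have hge : q e ≤ m' := le_trans (Finset.le_sup he) hm'
    refine Set.mem_mul.2 ⟨g, hK1 (pos s) hge hg, v * w, hV2 _ (Set.mul_mem_mul hv (hW2 s j hj hw)),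
      ?_⟩
    rw [← mul_assoc, hgv]
  have hM : ∀ (s : List ℕ) (r : ℕ), ∃ m, ∀ j, Encodable.encode s ≤ j → j ≤ r →
      (E j : Set G) * W j ⊆ (K (pos s) m : Set G) * σ (pos s) := by
    intro s r
    choose q hq using fun j : {j : ℕ // Encodable.encode s ≤ j} => hM1 s j.1 j.2
    refine ⟨∑ j ∈ Finset.range (r + 1), if h : Encodable.encode s ≤ j then q ⟨j, h⟩ else 0,
      fun j hj hjr => hq ⟨j, hj⟩ _ ?_⟩
    have h1 := Finset.single_le_sum
      (f := fun j => if h : Encodable.encode s ≤ j then q ⟨j, h⟩ else 0)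
      (fun _ _ => Nat.zero_le _) (Finset.mem_range.2 (Nat.lt_succ_of_le hjr))
    simp only [hj, dif_pos] at h1
    exact h1
  choose M hM using hM
  -- the two interleaved plays
  let r' : List ℕ → ℕ → ℕ := fun s r => max r (Encodable.encode (M s r :: s))
  let nxt : List ℕ × List ℕ × ℕ → List ℕ × List ℕ × ℕ := fun p =>
    (M p.1 p.2.2 :: p.1, M p.2.1 (r' p.1 p.2.2) :: p.2.1,
      max (r' p.1 p.2.2) (Encodable.encode (M p.2.1 (r' p.1 p.2.2) :: p.2.1)) + 1)
  let S : ℕ → List ℕ × List ℕ × ℕ := fun t => Nat.rec ([], [], 0) (fun _ p => nxt p) t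
  have hS0 : S 0 = ([], [], 0) := rfl
  have hS : ∀ t, S (t + 1) = nxt (S t) := fun t => rfl
  let F1 : ℕ → Finset G := fun t => K (pos (S t).1) (M (S t).1 (S t).2.2)
  let F2 : ℕ → Finset G := fun t => K (pos (S t).2.1) (M (S t).2.1 (r' (S t).1 (S t).2.2))
  have hF1 : ∀ t, pos (S t).1 = (List.range t).map F1 := by
    intro t
    induction t with
    | zero => rfl
    | succ t ih =>
      rw [List.range_succ, List.map_append, ← ih, hS t]
      rfl
  have hF2 : ∀ t, pos (S t).2.1 = (List.range t).map F2 := by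
    intro t
    induction t with
    | zero => rfl
    | succ t ih =>
      rw [List.range_succ, List.map_append, ← ih, hS t]
      rfl
  obtain ⟨x, hx⟩ : ∃ x, ∀ t, x ∉ (F1 t : Set G) * σ (pos (S t).1) := by
    by_contra hcon
    push Not at hcon
    refine hwin F1 fun x _ => ?_
    obtain ⟨t, ht⟩ := hcon x
    rw [hF1 t] at ht
    exact Set.mem_iUnion.2 ⟨t, ht⟩
  obtain ⟨y, hy⟩ : ∃ y, ∀ t, y ∉ (F2 t : Set G) * σ (pos (S t).2.1) := by
    by_contra hcon
    push Not at hcon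
    refine hwin F2 fun x _ => ?_
    obtain ⟨t, ht⟩ := hcon x
    rw [hF2 t] at ht
    exact Set.mem_iUnion.2 ⟨t, ht⟩
  have hcover : ∀ t j, j ≤ r' (S t).1 (S t).2.2 →
      (∃ t, Encodable.encode (S t).1 ≤ j ∧ j ≤ (S t).2.2) ∨
      ∃ t, Encodable.encode (S t).2.1 ≤ j ∧ j ≤ r' (S t).1 (S t).2.2 := by
    intro t
    induction t with
    | zero =>
      intro j hj
      refine Or.inr ⟨0, ?_, hj⟩
      rw [hS0]
      simp
    | succ t ih =>
      intro j hj
      rcases le_or_gt j (r' (S t).1 (S t).2.2) with h1 | h1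
      · exact ih j h1
      rcases le_or_gt j (S (t + 1)).2.2 with h2 | h2
      · refine Or.inl ⟨t + 1, ?_, h2⟩
        rw [hS t]
        exact le_trans (le_max_right _ _) h1.le
      · refine Or.inr ⟨t + 1, ?_, hj⟩
        rw [hS t] at h2 ⊢
        exact le_trans (le_trans (le_max_right _ _) (Nat.le_succ _)) h2.le
  have hrt : ∀ t, t ≤ (S t).2.2 := by
    intro t
    induction t with
    | zero => exact Nat.zero_le _
    | succ t ih =>
      rw [hS t]
      exact Nat.succ_le_succ (le_trans ih (le_trans (le_max_left _ _) (le_max_left _ _)))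
  obtain ⟨j, hj1, hj2⟩ := hE x y
  rcases hcover j j (le_trans (hrt j) (le_max_left _ _)) with ⟨t, h1, h2⟩ | ⟨t, h1, h2⟩
  · exact hx t (hM (S t).1 (S t).2.2 j h1 h2 hj1)
  · exact hy t (hM (S t).2.1 _ j h1 h2 hj2)

end Pool.Agent.W651.OB
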